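import Mathlib

set_option autoImplicit false

open TensorProduct

namespace Pool.Agent.U30.WE

/-- Homomorphisms of abelian groups up to isogeny: homomorphisms with rational coefficients. -/
abbrev QHom (A B : Type) [AddCommGroup A] [AddCommGroup B] : Type := TensorProduct ℤ ℚ (A →+ B)

/-- The additive structure, by name. -/
noncomputable instance qHomGroup (A B : Type) [AddCommGroup A] [AddCommGroup B] :
    AddCommGroup (QHom A B) := TensorProduct.addCommGroup

/-- The additive structure, by name. -/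
noncomputable instance qHomMonoid (A B : Type) [AddCommGroup A] [AddCommGroup B] :
    AddCommMonoid (QHom A B) := TensorProduct.addCommMonoid

/-- The module structure, by name. -/
noncomputable instance qHomModule (A B : Type) [AddCommGroup A] [AddCommGroup B] :
    Module ℚ (QHom A B) := TensorProduct.leftModule

variable {A B C D : Type} [AddCommGroup A] [AddCommGroup B] [AddCommGroup C] [AddCommGroup D]

/-- The homomorphism `f` up to isogeny. -/
noncomputable def ofHom (f : A →+ B) : QHom A B := (1 : ℚ) ⊗ₜ[ℤ] f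

/-- Composition with `g`. -/
noncomputable def post (g : B →+ C) : QHom A B →ₗ[ℚ] QHom A C :=
  LinearMap.baseChange ℚ (AddMonoidHom.compHom g : (A →+ B) →+ (A →+ C)).toIntLinearMap

theorem post_add (g g' : B →+ C) :
    (post (g + g') : QHom A B →ₗ[ℚ] QHom A C) = post g + post g' := by
  refine LinearMap.ext fun x => ?_
  induction x using TensorProduct.induction_on with
  | zero => simp
  | tmul a f =>
    simp only [post, LinearMap.baseChange_tmul, AddMonoidHom.coe_toIntLinearMap, LinearMap.add_apply]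
    rw [map_add, AddMonoidHom.add_apply, TensorProduct.tmul_add]
  | add x y hx hy => rw [map_add, hx, hy, map_add]

/-- Composition with homomorphisms. -/
noncomputable def postHom : (B →+ C) →+ (QHom A B →ₗ[ℚ] QHom A C) := AddMonoidHom.mk' post post_add

/-- Composition up to isogeny. -/
noncomputable def compQ : QHom B C →ₗ[ℚ] QHom A B →ₗ[ℚ] QHom A C :=
  LinearMap.liftBaseChange ℚ postHom.toIntLinearMap

theorem compQ_tmul (a b : ℚ) (g : B →+ C) (f : A →+ B) :
    compQ (a ⊗ₜ[ℤ] g) (b ⊗ₜ[ℤ] f) = (a * b) ⊗ₜ[ℤ] (g.comp f) := by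
  simp only [compQ, postHom, LinearMap.liftBaseChange_tmul, LinearMap.smul_apply, AddMonoidHom.coe_toIntLinearMap,
    AddMonoidHom.mk'_apply, post, LinearMap.baseChange_tmul, TensorProduct.smul_tmul', smul_eq_mul]
  rfl

theorem compQ_assoc (h : QHom C D) (g : QHom B C) (f : QHom A B) :
    compQ (compQ h g) f = compQ h (compQ g f) := by
  induction h using TensorProduct.induction_on with
  | zero => simp
  | add x y hx hy => simp only [map_add, LinearMap.add_apply, hx, hy]
  | tmul a h =>
    induction g using TensorProduct.induction_on with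
    | zero => simp
    | add x y hx hy => simp only [map_add, LinearMap.add_apply, hx, hy]
    | tmul b g =>
      induction f using TensorProduct.induction_on with
      | zero => simp
      | add x y hx hy => simp only [map_add, hx, hy]
      | tmul c f => simp only [compQ_tmul, mul_assoc, AddMonoidHom.comp_assoc]

theorem compQ_id (f : QHom A B) : compQ (ofHom (AddMonoidHom.id B)) f = f := by
  induction f using TensorProduct.induction_on with
  | zero => simp
  | add x y hx hy => simp only [map_add, hx, hy]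
  | tmul c f => rw [ofHom, compQ_tmul, one_mul, AddMonoidHom.id_comp]

theorem compQ_ofHom (g : B →+ C) (f : A →+ B) : compQ (ofHom g) (ofHom f) = ofHom (g.comp f) := by
  rw [ofHom, ofHom, compQ_tmul, one_mul]; rfl

theorem ofHom_add (f g : A →+ B) : ofHom (f + g) = ofHom f + ofHom g := TensorProduct.tmul_add _ _ _

theorem ofHom_sum {ι : Type} (s : Finset ι) (f : ι → A →+ B) :
    ofHom (∑ i ∈ s, f i) = ∑ i ∈ s, ofHom (f i) := TensorProduct.tmul_sum _ _ _

theorem ofHom_nsmul (N : ℕ) (f : A →+ B) : ofHom (N • f) = (N : ℚ) • ofHom f := by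
  rw [ofHom, ofHom, TensorProduct.tmul_smul, Nat.cast_smul_eq_nsmul]

/-- Every homomorphism up to isogeny has an integral multiple. -/
theorem exists_integral (x : QHom A B) : ∃ N : ℕ, 0 < N ∧ ∃ f : A →+ B, (N : ℚ) • x = ofHom f := by
  induction x using TensorProduct.induction_on with
  | zero => exact ⟨1, one_pos, 0, by simp [ofHom]⟩
  | tmul a f =>
    refine ⟨a.den, a.den_pos, a.num • f, ?_⟩
    rw [ofHom, TensorProduct.tmul_smul, TensorProduct.smul_tmul', TensorProduct.smul_tmul']
    congr 1
    rw [smul_eq_mul, mul_comm, Rat.mul_den_eq_num, zsmul_eq_mul, mul_one]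
  | add x y hx hy =>
    obtain ⟨N, hN, f, hf⟩ := hx
    obtain ⟨M, hM, g, hg⟩ := hy
    refine ⟨N * M, Nat.mul_pos hN hM, M • f + N • g, ?_⟩
    rw [ofHom_add, ofHom_nsmul, ofHom_nsmul, ← hf, ← hg, smul_add, smul_smul, smul_smul]
    push_cast
    rw [mul_comm (M : ℚ) N]

/-- A homomorphism which is zero up to isogeny is torsion. -/
theorem torsion_of_ofHom {f : A →+ B} (h : ofHom f = 0) : ∃ N : ℕ, 0 < N ∧ N • f = 0 := by
  by_contra hcon
  have hinj : Function.Injective (LinearMap.toSpanSingleton ℤ (A →+ B) f) := by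
    rw [injective_iff_map_eq_zero]
    intro n hn
    by_contra hn0
    apply hcon
    refine ⟨n.natAbs, Int.natAbs_pos.2 hn0, ?_⟩
    rw [LinearMap.toSpanSingleton_apply] at hn
    rcases Int.natAbs_eq n with h1 | h1
    · rw [h1] at hn
      simpa using hn
    · rw [h1] at hn
      simpa using hn
  have hfl : Function.Injective ((LinearMap.toSpanSingleton ℤ (A →+ B) f).lTensor ℚ) :=
    Module.Flat.lTensor_preserves_injective_linearMap _ hinj
  have h2 : (LinearMap.toSpanSingleton ℤ (A →+ B) f).lTensor ℚ ((1 : ℚ) ⊗ₜ (1 : ℤ)) = 0 := by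
    rw [LinearMap.lTensor_tmul, LinearMap.toSpanSingleton_apply, one_smul]
    exact h
  have h3 := (injective_iff_map_eq_zero _).1 hfl _ h2
  have h4 := congrArg (TensorProduct.rid ℤ ℚ) h3
  rw [TensorProduct.rid_tmul, map_zero, one_smul] at h4
  exact one_ne_zero h4

/-- A homomorphism up to isogeny which factors through a finitely generated group. -/
def Small (x : QHom A B) : Prop :=
  ∃ N : ℕ, 0 < N ∧ ∃ (f : A →+ B) (S : Submodule ℤ B), S.FG ∧ (∀ a, f a ∈ S) ∧
    (N : ℚ) • x = ofHom f

theorem Small.comp {x : QHom A B} (h : Small x) (g : QHom B C) : Small (compQ g x) := by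
  obtain ⟨N, hN, f, S, hS, hf, hx⟩ := h
  obtain ⟨M, hM, g', hg⟩ := exists_integral g
  refine ⟨M * N, Nat.mul_pos hM hN, g'.comp f, S.map g'.toIntLinearMap, hS.map _,
    fun a => ⟨f a, hf a, rfl⟩, ?_⟩
  rw [← compQ_ofHom, ← hg, ← hx, map_smul, map_smul, LinearMap.smul_apply, smul_smul]
  push_cast
  rw [mul_comm]

theorem Small.zero : Small (0 : QHom A B) :=
  ⟨1, one_pos, 0, ⊥, Submodule.fg_bot, fun a => rfl, by simp [ofHom]⟩

theorem Small.add {x y : QHom A B} (hx : Small x) (hy : Small y) : Small (x + y) := by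
  obtain ⟨N, hN, f, S, hS, hf, hx⟩ := hx
  obtain ⟨M, hM, g, T, hT, hg, hy⟩ := hy
  refine ⟨N * M, Nat.mul_pos hN hM, M • f + N • g, S ⊔ T, hS.sup hT, fun a => ?_, ?_⟩
  · rw [AddMonoidHom.add_apply, AddMonoidHom.nsmul_apply, AddMonoidHom.nsmul_apply]
    exact Submodule.add_mem_sup (nsmul_mem (hf a) _) (nsmul_mem (hg a) _)
  · rw [ofHom_add, ofHom_nsmul, ofHom_nsmul, ← hx, ← hy, smul_add, smul_smul, smul_smul]
    push_cast
    rw [mul_comm (M : ℚ) N]

theorem Small.sum {ι : Type} (s : Finset ι) {x : ι → QHom A B} (h : ∀ i ∈ s, Small (x i)) :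
    Small (∑ i ∈ s, x i) := by
  classical
  induction s using Finset.induction_on with
  | empty => simpa using Small.zero
  | insert a s ha ih =>
    rw [Finset.sum_insert ha]
    exact (h a (Finset.mem_insert_self _ _)).add (ih fun i hi => h i (Finset.mem_insert_of_mem hi))

/-- A subgroup with finite torsion whose inclusion factors up to isogeny through a finitely
generated group is finitely generated. -/
theorem fg_of_small {P : AddSubgroup B} (h : Small (ofHom P.subtype))
    (ht : ∀ N : ℕ, 0 < N → {x | x ∈ P ∧ N • x = 0}.Finite) : P.FG := by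
  obtain ⟨N, hN, f, S, hS, hf, hx⟩ := h
  have h1 : ofHom (N • P.subtype - f) = 0 := by
    have h2 : ofHom (N • P.subtype - f) + ofHom f = ofHom f := by
      rw [← ofHom_add, sub_add_cancel, ofHom_nsmul, hx]
    simpa using h2
  obtain ⟨K, hK, h2⟩ := torsion_of_ofHom h1
  have h3 : ∀ x ∈ P, (K * N) • x ∈ S := by
    intro x hx
    have h4 := DFunLike.congr_fun h2 ⟨x, hx⟩
    simp only [AddMonoidHom.nsmul_apply, AddMonoidHom.sub_apply, AddSubgroup.subtype_apply,
      AddMonoidHom.zero_apply, smul_sub, sub_eq_zero, smul_smul] at h4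
    rw [h4]
    exact nsmul_mem (hf _) _
  have h5 : P = (AddSubgroup.toIntSubmodule P).toAddSubgroup := rfl
  rw [h5, ← Submodule.fg_iff_addSubgroup_fg]
  have hnoe : IsNoetherian ℤ S := isNoetherian_of_fg_of_noetherian S hS
  refine Submodule.fg_of_fg_map_of_fg_inf_ker (LinearMap.lsmul ℤ B ((K * N : ℕ) : ℤ)) ?_ ?_
  · refine isNoetherian_submodule.1 hnoe _ ?_
    rintro _ ⟨x, hx, rfl⟩
    have := h3 x hx
    rw [LinearMap.lsmul_apply, natCast_zsmul]
    exact this
  · refine Submodule.fg_def.2 ⟨_, ?_, Submodule.span_eq _⟩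
    refine (ht (K * N) (Nat.mul_pos hK hN)).subset ?_
    rintro x ⟨hx1, hx2⟩
    refine ⟨hx1, ?_⟩
    have hx3 : LinearMap.lsmul ℤ B ((K * N : ℕ) : ℤ) x = 0 := hx2
    rwa [LinearMap.lsmul_apply, natCast_zsmul] at hx3

theorem small_of_fg {P : AddSubgroup B} (h : P.FG) {x : QHom A B}
    (hx : ∃ N : ℕ, 0 < N ∧ ∃ f : A →+ B, (∀ a, f a ∈ P) ∧ (N : ℚ) • x = ofHom f) : Small x := by
  obtain ⟨N, hN, f, hf, hx⟩ := hx
  exact ⟨N, hN, f, AddSubgroup.toIntSubmodule P,
    (Submodule.fg_iff_addSubgroup_fg _).2 h, hf, hx⟩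

end Pool.Agent.U30.WE
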