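import Pool.Agent.W484.CK.Motivic
import Pool.Agent.U30.WE.QHom

/-!
# Cohomology groups on which correspondences act up to isogeny: definitions
-/

set_option autoImplicit false

open CategoryTheory AlgebraicGeometry

namespace Pool.Agent.U30.WE

open Polynomial Pool.Agent.H914 Pool.Agent.H914.VarClass Pool.Agent.H914.VarClass.Obj
  Pool.Agent.W492.BB Pool.Agent.W484.CK

variable {k : Type} [Field k] {𝒱 : VarClass k}

/-- Abelian groups `W(X)` with subgroups `W^n(X)`, and an action of the classes of correspondences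
in `CH(X × Y) ⊗ ℚ` as homomorphisms `W(X) → W(Y)` up to isogeny. -/
structure GroupTheory (C : TheoryData.{0, 0, 0} 𝒱 ℚ) where
  /-- the group `W(X)` -/
  W : 𝒱.Obj → Type
  [group : ∀ X, AddCommGroup (W X)]
  /-- the group `W^n(X)` -/
  part : ∀ X, ℤ → AddSubgroup (W X)
  /-- the action of correspondences -/
  act : ∀ {X Y : 𝒱.Obj}, C.A (X.prod Y) →ₗ[ℚ] QHom (W X) (W Y)

attribute [instance] GroupTheory.group

namespace GroupTheory

variable {C : TheoryData.{0, 0, 0} 𝒱 ℚ} (G : GroupTheory C)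

/-- The action of the correspondence `Γ`, a homomorphism `W(X) → W(Y)` up to isogeny. -/
noncomputable def app {X Y : 𝒱.Obj} (Γ : C.A (X.prod Y)) : QHom (G.W X) (G.W Y) := G.act Γ

/-- The correspondence `N Γ` acts as the homomorphism `f` up to isogeny. -/
def Acts {X Y : 𝒱.Obj} (Γ : C.A (X.prod Y)) (N : ℕ) (f : G.W X →+ G.W Y) : Prop :=
  G.app ((N : ℚ) • Γ) = ofHom f

/-- The homomorphism `f` maps `W^i(X)` to `W^j(Y)`. -/
def Maps {X Y : 𝒱.Obj} (f : G.W X →+ G.W Y) (i j : ℤ) : Prop :=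
  ∀ x ∈ G.part X i, f x ∈ G.part Y j

/-- The homomorphism `f` is multiplication by `m` on `W^i(X)`. -/
def Multiplies {X : 𝒱.Obj} (f : G.W X →+ G.W X) (i : ℤ) (m : ℕ) : Prop :=
  ∀ x ∈ G.part X i, f x = m • x

/-- The action is compatible with compositions. -/
def HasComposition : Prop :=
  ∀ {X Y Z : 𝒱.Obj} (Γ : C.A (X.prod Y)) (Δ : C.A (Y.prod Z)) (N M : ℕ)
    (f : G.W X →+ G.W Y) (g : G.W Y →+ G.W Z), G.Acts Γ N f → G.Acts Δ M g →
      G.Acts (compose C Γ Δ) (N * M) (g.comp f)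

/-- The diagonal acts as the identity. -/
def HasIdentity : Prop :=
  ∀ X : 𝒱.Obj, G.Acts (diagonal C X) 1 (AddMonoidHom.id (G.W X))

/-- Correspondences in `CH^(dim X + j)(X × Y)` map `W^i(X)` to `W^(i + j)(Y)`. -/
def HasDegree : Prop :=
  ∀ {X Y : 𝒱.Obj} {j : ℤ} (Γ : C.A (X.prod Y)), C.Deg (X.dim + j) Γ → ∀ i : ℤ,
    ∃ N : ℕ, 0 < N ∧ ∃ f : G.W X →+ G.W Y, G.Acts Γ N f ∧ G.Maps f i (i + j)

/-- The endomorphism `F` of `X` acts on `W^n(X)` as `q ^ n` for `n ≥ 0`, up to isogeny. -/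
def HasFrobenius (F : ∀ X : 𝒱.Obj, X ⟶ X) (q : ℕ) : Prop :=
  ∀ (X : 𝒱.Obj) (n : ℕ), ∃ N : ℕ, 0 < N ∧ ∃ f : G.W X →+ G.W X,
    G.Acts (C.down (Obj.lift (F X) (𝟙 X)) 1) N f ∧ G.Multiplies f n (N * q ^ n)

/-- The subgroups of the elements of `W^n(X)` killed by a positive integer are finite. -/
def HasFiniteTorsion : Prop :=
  ∀ (X : 𝒱.Obj) (n : ℤ) (N : ℕ), 0 < N → {x | x ∈ G.part X n ∧ N • x = 0}.Finite

end GroupTheory

/-- The action of correspondences up to isogeny is compatible with composition, identities and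
degrees, the Frobenius endomorphism `F` acts on `W^n(X)` as `q ^ n` up to isogeny, the groups
`W^n(X)` are zero for `n < 0`, and their subgroups of elements killed by a positive integer
are finite. -/
structure IsGroupTheory {C : TheoryData.{0, 0, 0} 𝒱 ℚ} (G : GroupTheory C)
    (F : ∀ X : 𝒱.Obj, X ⟶ X) (q : ℕ) : Prop where
  composition : G.HasComposition
  identity : G.HasIdentity
  degree : G.HasDegree
  frobenius : G.HasFrobenius F q
  negative : ∀ (X : 𝒱.Obj) (n : ℤ), n < 0 → G.part X n = ⊥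
  torsion : G.HasFiniteTorsion

theorem acts_iff {C : TheoryData.{0, 0, 0} 𝒱 ℚ} {G : GroupTheory C} {X Y : 𝒱.Obj}
    {Γ : C.A (X.prod Y)} {N : ℕ} {f : G.W X →+ G.W Y} :
    G.Acts Γ N f ↔ (N : ℚ) • G.act Γ = ofHom f := by
  unfold GroupTheory.Acts GroupTheory.app
  rw [map_smul]

theorem IsGroupTheory.act_comp {C : TheoryData.{0, 0, 0} 𝒱 ℚ} {G : GroupTheory C}
    {F : ∀ X : 𝒱.Obj, X ⟶ X} {q : ℕ} (h : IsGroupTheory G F q) {X Y Z : 𝒱.Obj}
    (Γ : C.A (X.prod Y)) (Δ : C.A (Y.prod Z)) :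
    G.act (compose C Γ Δ) = compQ (G.act Δ) (G.act Γ) := by
  obtain ⟨N, hN, f, hf⟩ := exists_integral (G.act Γ)
  obtain ⟨M, hM, g, hg⟩ := exists_integral (G.act Δ)
  have h1 := acts_iff.1 (h.composition Γ Δ N M f g (acts_iff.2 hf) (acts_iff.2 hg))
  have h2 : ((N * M : ℕ) : ℚ) • compQ (G.act Δ) (G.act Γ) = ofHom (g.comp f) := by
    rw [← compQ_ofHom, ← hf, ← hg, map_smul, map_smul, LinearMap.smul_apply, smul_smul]
    push_cast
    rfl
  have h3 : ((N * M : ℕ) : ℚ) ≠ 0 := by exact_mod_cast (Nat.mul_pos hN hM).ne'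
  exact smul_right_injective _ h3 (h1.trans h2.symm)

theorem IsGroupTheory.act_id {C : TheoryData.{0, 0, 0} 𝒱 ℚ} {G : GroupTheory C}
    {F : ∀ X : 𝒱.Obj, X ⟶ X} {q : ℕ} (h : IsGroupTheory G F q) (X : 𝒱.Obj) :
    G.act (diagonal C X) = ofHom (AddMonoidHom.id (G.W X)) := by
  have h1 := acts_iff.1 (h.identity X)
  rwa [Nat.cast_one, one_smul] at h1

/-- The theory `Hom(D, W(X))` up to isogeny. -/
noncomputable def homData {C : TheoryData.{0, 0, 0} 𝒱 ℚ} (G : GroupTheory C) (D : Type)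
    [AddCommGroup D] : MotivicData C where
  M X := QHom D (G.W X)
  gr X n := Submodule.span ℚ {x | ∃ f : D →+ G.W X, (∀ d, f d ∈ G.part X n) ∧ x = ofHom f}
  act := compQ ∘ₗ G.act

variable {C : TheoryData.{0, 0, 0} 𝒱 ℚ} {G : GroupTheory C} {F : ∀ X : 𝒱.Obj, X ⟶ X} {q : ℕ}
  {D : Type} [AddCommGroup D]

theorem of_nsmul {A B : Type} [AddCommGroup A] [AddCommGroup B] {N : ℕ} (hN : 0 < N)
    {x : QHom A B} {f : A →+ B} (h : (N : ℚ) • x = ofHom f) : x = (N : ℚ)⁻¹ • ofHom f := by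
  rw [← h, smul_smul, inv_mul_cancel₀ (by exact_mod_cast hN.ne'), one_smul]

theorem gr_integral {X : 𝒱.Obj} {n : ℤ} {x : (homData G D).M X} (hx : x ∈ (homData G D).gr X n) :
    ∃ N : ℕ, 0 < N ∧ ∃ f : D →+ G.W X, (∀ d, f d ∈ G.part X n) ∧ (N : ℚ) • x = ofHom f := by
  refine Submodule.span_induction (p := fun x _ => ∃ N : ℕ, 0 < N ∧ ∃ f : D →+ G.W X,
    (∀ d, f d ∈ G.part X n) ∧ (N : ℚ) • x = ofHom f) ?_ ?_ ?_ ?_ hx
  · rintro _ ⟨f, hf, rfl⟩
    exact ⟨1, one_pos, f, hf, by rw [Nat.cast_one, one_smul]⟩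
  · exact ⟨1, one_pos, 0, fun d => zero_mem _, by rw [smul_zero]; simp [ofHom]⟩
  · rintro x y - - ⟨N, hN, f, hf, hx⟩ ⟨M, hM, g, hg, hy⟩
    refine ⟨N * M, Nat.mul_pos hN hM, M • f + N • g, fun d => ?_, ?_⟩
    · rw [AddMonoidHom.add_apply, AddMonoidHom.nsmul_apply, AddMonoidHom.nsmul_apply]
      exact add_mem (nsmul_mem (hf d) _) (nsmul_mem (hg d) _)
    · rw [ofHom_add, ofHom_nsmul, ofHom_nsmul, ← hx, ← hy, smul_add, smul_smul, smul_smul]
      push_cast
      rw [mul_comm (M : ℚ) N]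
  · rintro c x - ⟨N, hN, f, hf, hx⟩
    refine ⟨c.den * N, Nat.mul_pos c.den_pos hN, c.num • f, fun d => ?_, ?_⟩
    · exact zsmul_mem (hf d) _
    · have h1 : ofHom (c.num • f) = (c.num : ℚ) • ofHom f := by
        rw [ofHom, ofHom, TensorProduct.tmul_smul, Int.cast_smul_eq_zsmul]
      rw [h1, ← hx, smul_smul, smul_smul]
      congr 1
      push_cast
      rw [← Rat.mul_den_eq_num c]
      ring

/-- the subspace of `Hom(D, W^n(X))` -/
noncomputable def homGr (G : GroupTheory C) (D : Type) [AddCommGroup D] (X : 𝒱.Obj) (n : ℤ) :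
    Submodule ℚ (QHom D (G.W X)) :=
  Submodule.span ℚ {x | ∃ f : D →+ G.W X, (∀ d, f d ∈ G.part X n) ∧ x = ofHom f}

theorem compQ_mem {X Y : 𝒱.Obj} {i j : ℤ} {x : QHom (G.W X) (G.W Y)} {N : ℕ} (hN : 0 < N)
    {g : G.W X →+ G.W Y} (hg : (N : ℚ) • x = ofHom g) (hgm : ∀ x ∈ G.part X i, g x ∈ G.part Y j)
    {m : QHom D (G.W X)} (hm : m ∈ homGr G D X i) : compQ x m ∈ homGr G D Y j := by
  have hx := of_nsmul hN hg
  unfold homGr at hm
  induction hm using Submodule.span_induction with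
  | mem m hm =>
    obtain ⟨f, hf, rfl⟩ := hm
    have h1 : compQ x (ofHom f) = (N : ℚ)⁻¹ • ofHom (g.comp f) := by
      rw [hx, map_smul, LinearMap.smul_apply, compQ_ofHom]
    rw [h1]
    exact Submodule.smul_mem _ _ (Submodule.subset_span ⟨g.comp f, fun d => hgm _ (hf d), rfl⟩)
  | zero =>
    rw [map_zero]
    exact zero_mem _
  | add x y _ _ hx hy =>
    rw [map_add]
    exact add_mem hx hy
  | smul c x _ hx =>
    rw [map_smul]
    exact Submodule.smul_mem _ _ hx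

theorem homData_isMotivic (h : IsGroupTheory G F q) : IsMotivic (homData G D) where
  app_mem := by
    intro X Y i j Γ m hΓ hm
    obtain ⟨N, hN, g, hg, hgm⟩ := h.degree Γ hΓ i
    exact compQ_mem hN (acts_iff.1 hg) hgm hm
  app_comp := by
    intro X Y Z Γ Δ m
    have key : ∀ m : QHom D (G.W X),
        compQ (G.act (compose C Γ Δ)) m = compQ (G.act Δ) (compQ (G.act Γ) m) := fun m => by
      rw [h.act_comp, compQ_assoc]
    exact key m
  app_id := by
    intro X m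
    have key : ∀ m : QHom D (G.W X), compQ (G.act (diagonal C X)) m = m := fun m => by
      rw [h.act_id, compQ_id]
    exact key m

end Pool.Agent.U30.WE
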