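import Pool.Agent.U231.FR.Kt
import Pool.Agent.U30.WE.Defs

/-!
# Finite generation of cohomology groups of products with varieties of Fermat type
-/

set_option autoImplicit false

open Finset Polynomial CategoryTheory AlgebraicGeometry

namespace Pool.Agent.U30.WE

open Pool.Agent.H914 Pool.Agent.H914.VarClass Pool.Agent.H914.VarClass.Obj Pool.Agent.W492.BB
  Pool.Agent.W484.CK Pool.Agent.U231.FF Pool.Agent.U231.FR.Base

section theory

variable {k : Type} [Field k] {𝒱 : VarClass k} {C : TheoryData.{0, 0, 0} 𝒱 ℚ} {G : GroupTheory C}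
  {F : ∀ X : 𝒱.Obj, X ⟶ X} {q : ℕ} {D : Type} [AddCommGroup D]

theorem frob_key (h : IsGroupTheory G F q) {X : 𝒱.Obj} {n : ℤ} {t : QHom D (G.W X)}
    (ht : t ∈ homGr G D X n) :
    compQ (G.act (C.down (Obj.lift (F X) (𝟙 X)) 1)) t = (q : ℚ) ^ n • t := by
  obtain ⟨N, hN, f, hf, hx⟩ := gr_integral (G := G) (D := D) ht
  have ht' := of_nsmul hN hx
  rcases lt_or_ge n 0 with hn | hn
  · have h0 : f = 0 := by
      ext d
      have := hf d
      rw [h.negative X n hn] at this
      exact this
    have h1 : t = 0 := by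
      rw [ht', h0]
      simp [ofHom]
    rw [h1, map_zero, smul_zero]
  · obtain ⟨m, rfl⟩ := Int.eq_ofNat_of_zero_le hn
    obtain ⟨M, hM, g, hg, hgm⟩ := h.frobenius X m
    have hg' := of_nsmul hM (acts_iff.1 hg)
    have hM0 : (M : ℚ) ≠ 0 := by exact_mod_cast hM.ne'
    have h1 : g.comp f = (M * q ^ m) • f := by
      ext d
      rw [AddMonoidHom.comp_apply, hgm _ (hf d), AddMonoidHom.nsmul_apply]
    rw [ht', hg', map_smul, map_smul, LinearMap.smul_apply, compQ_ofHom, h1, ofHom_nsmul,
      smul_smul, smul_smul, smul_smul, zpow_natCast]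
    congr 1
    push_cast
    field_simp

theorem homData_isCycleTheory (h : IsGroupTheory G F q) :
    IsCycleTheory (homData G D) (fun _ => LinearMap.id) F q where
  motivic := homData_isMotivic h
  comm := fun _ _ => rfl
  power := fun ht => sub_eq_zero.2 (frob_key h ht)

theorem homData_isRoot : IsRoot (homData G D) (fun _ => LinearMap.id) (Polynomial.X - 1) := by
  intro X n r _
  have h1 : aeval (LinearMap.id : Module.End ℚ ((homData G D).M X)) (Polynomial.X - 1 : ℚ[X]) = 0 := by
    rw [map_sub, aeval_X, map_one]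
    exact sub_self _
  rw [h1]
  rfl

/-- one step -/
theorem step_iff [IsChow C] (h : IsGroupTheory G F q) {B V : 𝒱.Obj} {J : Type} [Fintype J]
    {deg : J → ℕ} {D E : J → C.A B} (hd : Pool.Agent.W484.CH.IsDual B V deg D E)
    (hK : ∀ (P : Type) [AddCommGroup P],
      Pool.Agent.W484.CH.HasKunneth (toCorr (homData G P)) B V deg D) (n : ℤ) :
    (G.part (B.prod V) n).FG ↔ ∀ j, (G.part V (n - deg j)).FG := by
  constructor
  · intro hfg j
    refine fg_of_small ?_ (h.torsion V _)
    have hι : ofHom (G.part V (n - deg j)).subtype ∈ homGr G (G.part V (n - deg j)) V (n - deg j) :=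
      Submodule.subset_span ⟨_, fun d => d.2, rfl⟩
    have h1 : C.Deg (V.dim + (deg j : ℤ)) (Pool.Agent.W484.CH.extBy C V (D j)) :=
      Pool.Agent.W484.CH.extBy_mem (hd.left j)
    obtain ⟨N, hN, g, hg, hgm⟩ := h.degree _ h1 (n - deg j)
    have h2 := compQ_mem (D := G.part V (n - deg j)) hN (acts_iff.1 hg) hgm hι
    rw [sub_add_cancel] at h2
    have h3 := (small_of_fg hfg (gr_integral (G := G) (D := G.part V (n - deg j)) h2)).comp
      (G.act (Pool.Agent.W484.CH.pairBy C V (E j)))
    have h4 : compQ (G.act (Pool.Agent.W484.CH.pairBy C V (E j)))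
        (G.act (Pool.Agent.W484.CH.extBy C V (D j))) = ofHom (AddMonoidHom.id (G.W V)) := by
      rw [← h.act_comp]
      refine (congrArg G.act ?_).trans (h.act_id V)
      exact Pool.Agent.W484.CH.comp_extBy_same hd j
    rw [← compQ_assoc, h4, compQ_id] at h3
    exact h3
  · intro hfg
    refine fg_of_small ?_ (h.torsion _ _)
    have hι : ofHom (G.part (B.prod V) n).subtype ∈ homGr G (G.part (B.prod V) n) (B.prod V) n :=
      Submodule.subset_span ⟨_, fun d => d.2, rfl⟩
    obtain ⟨z, ⟨hz, hm⟩, -⟩ := hK (G.part (B.prod V) n) n _ hι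
    have hm' : ofHom (G.part (B.prod V) n).subtype =
      ∑ j, compQ (G.act (Pool.Agent.W484.CH.extBy C V (D j))) (z j) := hm
    rw [hm']
    refine Small.sum _ fun j _ => ?_
    exact (small_of_fg (hfg j) (gr_integral (G := G) (D := G.part (B.prod V) n) (hz j))).comp _

end theory

/-- **Finite generation for products with varieties of Fermat type.** -/
theorem main (p : ℕ) [Fact p.Prime] (κ : Type) [Field κ] [Fintype κ] [CharP κ p] {ι : Type}
    (N s : ι → ℕ) {𝒱 : VarClass κ} (A : TheoryData.{0, 0, 0} 𝒱 ℚ) [IsChow A] {K : Type} [Field K]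
    [IsAlgClosed K] [CharZero K] (H : WeilTheoryData.{0, 0, 0} A K) [IsWeil H] (τ : K →+* ℂ)
    (F : ∀ X : 𝒱.Obj, X ⟶ X) (X : ι → 𝒱.Obj) (Z : 𝒱.Obj)
    (h : IsFermatSystem p N s H τ F X Z (Polynomial.X - 1))
    (hnil : ∀ L, Nilpotence H (productOf X Z L))
    (G : GroupTheory A) (hG : IsGroupTheory G F (Fintype.card κ))
    (L : List ι) (hL : L.Nodup) (n : ℤ) :
    (G.part (productOf X Z L) n).FG ↔
      ∀ m : ℤ, n - dimension X L ≤ m → m ≤ n → (G.part Z m).FG := by
  obtain ⟨⟨hprime, hne⟩, hstd, hfrob, hprod, hferm, hpol, halg, hχ0, hbase⟩ := h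
  choose T₀ hT₀ hTtop hTS using hferm
  have hsys := Pool.Agent.U231.FR.cr_of (p := p) (χ := Polynomial.X - 1) τ hprime hne
    (isStandard_bridge hstd) (fun X => isFrobenius_bridge (hfrob X)) hprod T₀ hT₀ hTtop hTS
    (fun β hβ => halg _ ⟨β, hβ, rfl⟩) hbase
  have hrel : ∀ (P : Type) [AddCommGroup P], Pool.Agent.N876.CG.RelTheory (toCorr (homData G P))
      (fun _ => LinearMap.id) F (Fintype.card κ) (Polynomial.X - 1) := fun P _ =>
    { corr := toCorr_isCorrTheory (homData_isMotivic hG)
      comm := (homData_isCycleTheory hG).comm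
      power := fun X n t ht => ⟨1, by
        rw [pow_one]
        exact (homData_isCycleTheory hG).power ht⟩
      poly := fun X n t ht => homData_isRoot ht }
  have hnil' : ∀ (P : Type) [AddCommGroup P] (L : List ι),
      Pool.Agent.N876.CG.NilT H (toCorr (homData G P)) (Pool.Agent.N876.CG.tw X Z L) :=
    fun P _ L => Pool.Agent.N876.CG.nilT_of (toCorr_isCorrTheory (homData_isMotivic hG)) (by
      rw [← Pool.Agent.U231.FR.Pa.tw_eq]
      exact nilpotence_bridge (hnil L))
  induction L generalizing n with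
  | nil =>
    constructor
    · intro h1 m h2 h3
      have h4 : m = n := by
        simp only [dimension, Nat.cast_zero, sub_zero] at h2
        omega
      rw [h4]
      exact h1
    · intro h1
      exact h1 n (by simp [dimension]) le_rfl
  | cons i L ih =>
    rw [List.nodup_cons] at hL
    obtain ⟨J, hJ, deg, D, E, h1, h2, h3⟩ := hsys.step hL.1 hL.2
    have h4 : (G.part (productOf X Z (i :: L)) n).FG ↔
        ∀ j, (G.part (productOf X Z L) (n - deg j)).FG := by
      rw [Pool.Agent.U231.FR.Pa.tw_eq, Pool.Agent.U231.FR.Pa.tw_eq]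
      exact step_iff hG h1 (fun P _ => h3 _ _ _ hχ0 (fun ρ hρ => hρ) (hrel P) (hnil' P (i :: L))) n
    rw [h4]
    have h0 : (dimension X (i :: L) : ℤ) = (X i).dim + dimension X L := by
      simp [dimension]
    constructor
    · intro hp m hm1 hm2
      obtain ⟨l, hl1, hl2, hl3⟩ : ∃ l : ℕ, l ≤ (X i).dim ∧ n - l - dimension X L ≤ m ∧
          m ≤ n - l := by
        refine ⟨min (X i).dim (n - m).toNat, min_le_left _ _, ?_, ?_⟩
        · omega
        · omega
      obtain ⟨j, hj⟩ := Pool.Agent.N876.CG.exists_deg_big (hpol i) h2 hl1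
      have h5 := (ih hL.2 (n - deg j)).1 (hp j)
      rw [hj] at h5
      exact h5 m hl2 hl3
    · intro hp j
      refine (ih hL.2 (n - deg j)).2 ?_
      intro m hm1 hm2
      have h5 := h1.le j
      refine hp m ?_ (by omega)
      omega

end Pool.Agent.U30.WE
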